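import Mathlib

set_option autoImplicit false

namespace Pool.Agent.Results.MP_6004b5_an.Area

open Complex Metric Set MeasureTheory
open scoped ComplexConjugate

/-- Sense-preserving univalent harmonic self-mappings `f = h + conj g` of the unit disc. -/
def InH (f : ℂ → ℂ) : Prop :=
  (∃ h g : ℂ → ℂ, AnalyticOnNhd ℂ h (ball 0 1) ∧ AnalyticOnNhd ℂ g (ball 0 1) ∧
    ∀ z ∈ ball (0 : ℂ) 1, f z = h z + conj (g z) ∧ 0 < ‖deriv h z‖ ^ 2 - ‖deriv g z‖ ^ 2) ∧
  InjOn f (ball 0 1) ∧ MapsTo f (ball 0 1) (ball 0 1)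

/-- The conformal automorphism `e^{iθ} (z - a) / (1 - conj a z)`. -/
noncomputable def mob (θ : ℝ) (a : ℂ) (z : ℂ) : ℂ := exp (θ * I) * ((z - a) / (1 - conj a * z))

lemma area {h g A B : ℂ → ℂ} {E : Set ℂ} (hE : MeasurableSet E) (hh : ∀ z ∈ E, HasDerivAt h (A z) z)
    (hg : ∀ z ∈ E, HasDerivAt g (B z) z) (hi : InjOn (fun z => h z + conj (g z)) E) :
    volume ((fun z => h z + conj (g z)) '' E) = ∫⁻ z in E, ENNReal.ofReal |normSq (A z) - normSq (B z)| := by
  refine (lintegral_abs_det_fderiv_eq_addHaar_image volume hE (fun z hz =>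
    (((hh z hz).hasFDerivAt.restrictScalars ℝ).fun_add (conjCLE.hasFDerivAt.comp z
      ((hg z hz).hasFDerivAt.restrictScalars ℝ))).hasFDerivWithinAt) hi).symm.trans ?_
  congr! 4 with z
  rw [ContinuousLinearMap.det, ← LinearMap.det_toMatrix basisOneI, Matrix.det_fin_two]
  simp [LinearMap.toMatrix_apply, normSq_apply]
  ring

def E : Set ℂ := {z | ‖z‖ < 1 / 4 ∧ 1 / 32 < (z ^ 2).re}

lemma E_open : IsOpen E := 
  (isOpen_lt continuous_norm continuous_const).inter (isOpen_lt continuous_const (continuous_re.comp (continuous_pow 2)))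

lemma mob_le (θ : ℝ) {a : ℂ} (ha : ‖a‖ < 1) : volume (mob θ a '' E) ≤ volume E := by
  have h0 : ∀ z ∈ E, ‖conj a * z‖ ≤ ‖a‖ / 4 := fun z hz => by
    rw [norm_mul, norm_conj]; nlinarith [hz.1, norm_nonneg a]
  have h1 : ∀ z ∈ E, 1 - conj a * z ≠ 0 := fun z hz h => by
    have := h0 z hz; rw [← sub_eq_zero.1 h, norm_one] at this; linarith
  have h2 : (1 - conj a * a : ℂ) = (1 - ‖a‖ ^ 2 : ℝ) := by rw [conj_mul']; simp
  have := area (h := mob θ a) (g := fun _ => 0) (B := fun _ => 0)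
    (A := fun z => exp (θ * I) * ((1 - conj a * a) / (1 - conj a * z) ^ 2)) E_open.measurableSet
    (fun z hz => (((((hasDerivAt_id z).sub_const a).div (((hasDerivAt_id z).const_mul (conj a)).const_sub 1)
      (h1 z hz)).const_mul (exp (θ * I)))).congr_deriv (by simp; ring))
    (fun z _ => hasDerivAt_const _ _) fun z hz w hw e => by
      simp only [mob, map_zero, add_zero, mul_right_inj' (exp_ne_zero _), div_eq_div_iff (h1 z hz) (h1 w hw)] at e
      have h3 : (1 - conj a * a : ℂ) ≠ 0 := by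
        rw [h2]; exact ofReal_ne_zero.2 (by nlinarith [norm_nonneg a])
      exact sub_eq_zero.1 ((mul_eq_zero.1 (show (1 - conj a * a) * (z - w) = 0 by
        linear_combination e)).resolve_left h3)
  simp only [map_zero, add_zero, sub_zero] at this
  rw [this]
  set J := fun z => ENNReal.ofReal |normSq (exp (θ * I) * ((1 - conj a * a) / (1 - conj a * z) ^ 2))|
  have hm : Measurable J := by fun_prop
  have h4 : ∫⁻ z in E, J (-z) = ∫⁻ z in E, J z := by
    have := (Measure.measurePreserving_neg (volume : Measure ℂ)).setLIntegral_comp_preimage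
      E_open.measurableSet hm
    rwa [show Neg.neg ⁻¹' E = E by ext; simp [E]] at this
  have h5 : ∫⁻ z in E, (J z + J (-z)) ≤ ∫⁻ z in E, 2 := setLIntegral_mono' E_open.measurableSet fun z hz => by
    rw [← ENNReal.ofReal_add (abs_nonneg _) (abs_nonneg _), ← ENNReal.ofReal_ofNat]
    refine ENNReal.ofReal_le_ofReal ?_
    rw [abs_of_nonneg (normSq_nonneg _), abs_of_nonneg (normSq_nonneg _)]
    simp only [map_mul, map_div₀, map_pow, h2, normSq_ofReal,
      normSq_eq_norm_sq (exp _), norm_exp_ofReal_mul_I, mul_neg, sub_neg_eq_add]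
    have k0 := h0 z hz
    generalize conj a * z = w at *
    have k1 := normSq_pos.2 (show 1 - w ≠ 0 from fun h => by
      rw [← sub_eq_zero.1 h, norm_one] at k0; linarith)
    have k2 := normSq_pos.2 (show 1 + w ≠ 0 from fun h => by
      rw [eq_neg_of_add_eq_zero_right h, norm_neg, norm_one] at k0; linarith)
    have k3 : w.re ^ 2 ≤ normSq w := by rw [normSq_apply]; nlinarith
    have k4 : normSq w ≤ ‖a‖ ^ 2 / 16 := by rw [normSq_eq_norm_sq]; nlinarith [norm_nonneg w]
    have k5 : ‖a‖ ^ 2 < 1 := by nlinarith [norm_nonneg a]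
    simp only [normSq_sub, normSq_add, map_one, one_mul, conj_re] at k1 k2 ⊢
    have k6 := sq_nonneg ‖a‖
    generalize ‖a‖ ^ 2 = u at *
    have k7 := normSq_nonneg w
    generalize normSq w = x at *
    generalize w.re = y at *
    rw [one_pow, one_mul, one_mul, div_add_div _ _ (by positivity) (by positivity), div_le_iff₀ (by positivity)]
    have k8 : 1 - 2 * x ≤ (1 + x - 2 * y) * (1 + x + 2 * y) := by nlinarith
    have k9 : (1 - 2 * x) ^ 2 ≤ ((1 + x - 2 * y) * (1 + x + 2 * y)) ^ 2 := by gcongr; linarith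
    have k10 : (1 + x + 2 * y) ^ 2 + (1 + x - 2 * y) ^ 2 ≤ 2 * (1 + 7 * x) := by nlinarith
    have k11 : (1 - u) * (1 - u) * (1 + 7 * x) ≤ 1 - 4 * x := by nlinarith [mul_nonneg k6 k7]
    nlinarith [mul_le_mul_of_nonneg_left k10 (mul_self_nonneg (1 - u))]
  rw [lintegral_add_left hm, h4, setLIntegral_const, ← two_mul] at h5
  exact (ENNReal.mul_le_mul_iff_right two_ne_zero ENNReal.ofNat_ne_top).1 h5

theorem result : ∃ E : Set ℂ, IsOpen E ∧ E ⊆ ball 0 (1 / 4) ∧ ∃ f : ℂ → ℂ, InH f ∧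
    ∀ (θ : ℝ) (a : ℂ), ‖a‖ < 1 → volume (mob θ a '' E) < volume (f '' E) := by
  have hs : E ⊆ ball 0 (1 / 4) := fun z hz => by simpa using hz.1
  have hh : ∀ z : ℂ, HasDerivAt (fun z : ℂ => 800 / 801 * (z + z ^ 3 / 40))
      (800 / 801 * (1 + 3 * z ^ 2 / 40)) z := fun z =>
    (((hasDerivAt_id z).add ((hasDerivAt_pow 3 z).div_const 40)).const_mul _).congr_deriv (by simp)
  have hg : ∀ z : ℂ, HasDerivAt (fun z : ℂ => -(20 / 801) * z) (-(20 / 801)) z := fun z => by
    simpa using (hasDerivAt_id z).const_mul (-(20 / 801) : ℂ)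
  have hi : InjOn (fun z : ℂ => 800 / 801 * (z + z ^ 3 / 40) + conj (-(20 / 801) * z)) (ball 0 1) :=
    fun z hz w hw e => by
      simp only [map_mul, map_neg, map_div₀, map_ofNat, mem_ball_zero_iff] at e hz hw
      have h1 : 40 * (z - w) = conj (z - w) - (z - w) * (z ^ 2 + z * w + w ^ 2) := by
        rw [map_sub]; linear_combination (801 / 20) * e
      have h2 := norm_sub_le (conj (z - w)) ((z - w) * (z ^ 2 + z * w + w ^ 2))
      have h3 : ‖z ^ 2 + z * w + w ^ 2‖ ≤ 3 := norm_add₃_le.trans (by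
        simp only [norm_pow, norm_mul]; nlinarith [norm_nonneg z, norm_nonneg w])
      rw [← h1, norm_mul, norm_mul, norm_conj, Complex.norm_ofNat] at h2
      exact sub_eq_zero.1 (norm_le_zero_iff.1 (by nlinarith [norm_nonneg (z - w)]))
  refine ⟨E, E_open, hs, _, ⟨⟨_, _, fun z _ => by fun_prop, fun z _ => by fun_prop, fun z hz => ⟨rfl, ?_⟩⟩,
    hi, fun z hz => ?_⟩, fun θ a ha => (mob_le θ ha).trans_lt ?_⟩
  · rw [(hh z).deriv, (hg z).deriv]
    have := norm_sub_norm_le 1 (-(3 * z ^ 2 / 40))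
    have hz := mem_ball_zero_iff.1 hz
    simp only [sub_neg_eq_add, norm_neg, norm_div, norm_mul, norm_pow, norm_one, Complex.norm_ofNat] at this ⊢
    have h : 9 / 10 ≤ ‖1 + 3 * z ^ 2 / 40‖ := by nlinarith [norm_nonneg z]
    nlinarith
  · have hz := mem_ball_zero_iff.1 hz
    have h1 : ‖z ^ 3 - conj z‖ ≤ 2 := (norm_sub_le _ _).trans (by
      rw [norm_pow, norm_conj]; linarith [pow_le_one₀ (norm_nonneg z) hz.le (n := 3)])
    have h2 : normSq (z ^ 3 - conj z) ≤ 4 := by rw [normSq_eq_norm_sq]; nlinarith [norm_nonneg (z ^ 3 - conj z)]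
    have h3 : normSq z < 1 := by rw [normSq_eq_norm_sq]; nlinarith [norm_nonneg z]
    have h4 : (z * conj (z ^ 3 - conj z)).re ≤ 1 - normSq z := by
      have : (z * conj (z ^ 3 - conj z)).re = (1 - normSq z) * (z.im ^ 2 - z.re ^ 2) := by
        simp [normSq_apply, pow_succ]; ring
      rw [this]; rw [normSq_apply] at *; nlinarith [sq_nonneg z.re]
    beta_reduce
    rw [mem_ball_zero_iff, ← sq_lt_one_iff₀ (norm_nonneg _), ← normSq_eq_norm_sq,
      show 800 / 801 * (z + z ^ 3 / 40) + conj (-(20 / 801) * z) =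
        (800 / 801 : ℝ) * (z + (1 / 40 : ℝ) * (z ^ 3 - conj z)) by simp [map_ofNat]; ring,
      map_mul, normSq_add, map_mul, map_mul, conj_ofReal, mul_left_comm z, re_ofReal_mul,
      normSq_ofReal, normSq_ofReal]
    linarith
  rw [area E_open.measurableSet (fun z _ => hh z) (fun z _ => hg z)
    (hi.mono (hs.trans (ball_subset_ball (by norm_num))))]
  refine lt_of_lt_of_le ?_ (setLIntegral_mono' (f := fun _ => ENNReal.ofReal (1001 / 1000))
    E_open.measurableSet fun z hz => ENNReal.ofReal_le_ofReal (le_trans ?_ (le_abs_self _)))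
  · rw [setLIntegral_const]
    nth_rw 1 [← one_mul (volume E)]
    exact ENNReal.mul_lt_mul_left (E_open.measure_pos _ ⟨1 / 5, by norm_num [E]⟩).ne'
      ((measure_mono hs).trans_lt measure_ball_lt_top).ne (by norm_num)
  · have := hz.2
    rw [map_mul, normSq_add, one_mul, conj_re, show 3 * z ^ 2 / 40 = (3 / 40 : ℝ) * z ^ 2 by
      push_cast; ring, re_ofReal_mul]
    have := normSq_nonneg ((3 / 40 : ℝ) * z ^ 2)
    norm_num at *
    linarith

end Pool.Agent.Results.MP_6004b5_an.Area
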